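import Pool.Agent.P.MP_164ed8_gt.VolE

open Pool.Agent.Lib.Kahler Pool.Agent.P.MP_164ed8_gt.Q1 Pool.Agent.P.MP_164ed8_gt.Vol

theorem Pool.Agent.Results.MP_164ed8_gt.BallProducts.result (k m : ℕ) (hk : 1 ≤ k) (hm : 1 ≤ m)
    (X : Set (Fin (k * m) → ℂ))
    (hX : X = {z | ∀ i : Fin k, ∑ a : Fin m, ‖z (finProdFinEquiv (i, a))‖ ^ 2 < 1})
    (C : Set ((Fin (k * m) → ℂ) → Matrix (Fin (k * m)) (Fin (k * m)) ℂ))
    (hC : C = {g | IsKahler X g ∧ (∀ z ∈ X, ∀ v, - normSq g z v ≤ ricci g z v) ∧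
      (∀ t : ℝ, IsCompact {z | z ∈ X ∧ (g z).det.re ≤ t}) ∧
      ∀ s : ℝ, 0 < s → (m + 1) * s < 1 →
        MeasureTheory.IntegrableOn (fun z => (g z).det.re ^ s) X}) :
    ∃ gKE ∈ C, IsCompleteMetric X gKE ∧ (∀ z ∈ X, ∀ v, ricci gKE z v = - normSq gKE z v) ∧
      ∀ g ∈ C, lambda0 X g ≤ lambda0 X gKE := by
  have : Nonempty (Fin k) := ⟨⟨0, hk⟩⟩
  have e : X = XB (finProdFinEquiv (m := k) (n := m)) := by
    rw [hX]; ext z; simp [XB, rh]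
  subst e hC
  exact ⟨hess (pot finProdFinEquiv), ⟨isKahler_pot, fun z hz v => (einstein_pot hz v).ge,
    proper_pot, fun s h0 hs => integrable_pot hm h0.le hs⟩, complete_pot,
    fun z hz => einstein_pot hz,
    fun g hg => (upper_pot hg.1 hg.2.1 hg.2.2.1 hg.2.2.2).trans lower_pot⟩
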