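import Pool.Agent.P.MP_164ed8_gt.Q1Upper
import Pool.Agent.P.MP_164ed8_gt.Q1Lower
import Pool.Agent.P.MP_164ed8_gt.Q1Complete

open Pool.Agent.Lib.Kahler Pool.Agent.P.MP_164ed8_gt.Q1

theorem Pool.Agent.Results.MP_164ed8_gt.Q1.result :
    ∃ (n : ℕ) (X : Set (Fin n → ℂ)) (gKE g : (Fin n → ℂ) → Matrix (Fin n) (Fin n) ℂ),
      IsOpen X ∧ IsConnected X ∧ ¬ IsCompact X ∧
      IsKahler X gKE ∧ IsCompleteMetric X gKE ∧
      (∀ z ∈ X, ∀ v, ricci gKE z v = - normSq gKE z v) ∧ 0 < lambda0 X gKE ∧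
      IsKahler X g ∧ IsCompleteMetric X g ∧
      (∀ z ∈ X, ∀ v, - normSq g z v ≤ ricci g z v) ∧
      lambda0 X gKE < lambda0 X g := by
  obtain ⟨t, ht, h⟩ := exists_good
  have hOK : OK t := fun q hq => (h q hq).1
  have hc := cC_pos
  refine ⟨20, XX, gT 0, gT t, isOpen_XX, isConnected_XX, not_isCompact_XX, isKahler_gT OK_zero,
    complete_gT OK_zero, fun z hz v => by simpa using ricci_gT OK_zero hz v, ?_, isKahler_gT hOK,
    complete_gT hOK, fun z hz v => ricci_ge hOK ht.le hz (h _ (Q_mem hz)).2 v,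
    upper.trans_lt (lt_of_lt_of_le (lt_add_of_pos_right _ (by positivity))
      (lower ht.le hOK fun q hq => (h q hq).2.b))⟩
  exact lt_of_lt_of_le (by norm_num) (lower le_rfl OK_zero fun q _ => by rw [Xi_zero]; positivity)
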