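import Pool.Agent.P.MP_164ed8_gt.Spectrum

open Pool.Agent.Lib.Kahler Pool.Agent.P.MP_164ed8_gt

theorem Pool.Agent.Results.MP_164ed8_gt.Q2.result (n : ℕ) (hn : 1 ≤ n) :
    ∃ (X : Set (Fin n → ℂ)) (gKE g : (Fin n → ℂ) → Matrix (Fin n) (Fin n) ℂ),
      IsOpen X ∧ IsConnected X ∧ ¬ IsCompact X ∧
      IsKahler X gKE ∧ IsCompleteMetric X gKE ∧
      (∀ z ∈ X, ∀ v, ricci gKE z v = - normSq gKE z v) ∧ 0 < lambda0 X gKE ∧
      IsKahler X g ∧ IsCompleteMetric X g ∧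
      (∀ z ∈ X, ∀ v, - normSq g z v ≤ ricci g z v) ∧
      (∃ z ∈ X, g z ≠ gKE z) ∧ (∃ z ∈ X, ∃ v, ricci g z v ≠ - normSq g z v) ∧
      lambda0 X gKE ≤ lambda0 X g := by
  have hn0 : (0 : ℝ) < n := by exact_mod_cast hn
  exact ⟨XS n, gS 0, gS 1, isOpen_XS, convex_XS.isConnected ⟨_, mem_XS⟩, not_isCompact_XS hn,
    isKahler_gS le_rfl, complete_gS le_rfl, fun z hz v => ricci_zero hz v,
    lt_of_lt_of_le (by positivity) (lower le_rfl zero_le_one),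
    isKahler_gS zero_le_one, complete_gS zero_le_one, fun z hz v => ricci_ge zero_le_one hz v,
    ⟨_, mem_XS, gS_ne hn⟩, ⟨_, mem_XS', _, not_einstein hn⟩,
    (upper hn).trans (lower zero_le_one le_rfl)⟩
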